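import Pool.Agent.Lib.MP_360b3f_an.Defs
import Pool.Agent.Lib.MP_360b3f_an.Weak
import Pool.Agent.Lib.MP_360b3f_an.Param

/-!
# MP_360b3f_an: the boundedness question has a negative answer

For `N = 1`, `L₁ = 𝒥_K` (any admissible kernel `K`), `L₂ = -Δ` and `f(u) = e^u` there is a
nonnegative, Lipschitz, compactly supported initial datum `u₀` and a finite time `T` such that the
system has no bounded weak solution on `[0,T] × ℝ`: the solution blows up in `L^∞` in finite time.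
-/

set_option autoImplicit false

open MeasureTheory Set
open Pool.Agent.MP_360b3f_an Pool.Agent.Lib.MP_360b3f_an

/-- Finite-time blow-up for `u_t + 𝒥_K u = v e^u`, `v_t - v_xx = - v e^u`, `v(0) = 1`. -/
theorem Pool.Agent.Results.MP_360b3f_an.BlowUp.result (K : ℝ → ℝ) (hK : AdmissibleKernel K) :
    ∃ u₀ : ℝ → ℝ, (∃ C, LipschitzWith C u₀) ∧ HasCompactSupport u₀ ∧ (∀ x, 0 ≤ u₀ x) ∧
      ∃ T : ℝ, 0 < T ∧ ∀ u v : ℝ → ℝ → ℝ,
        ¬ IsBoundedWeakSolution (nonlocalAdjoint K) negLaplacian Real.exp u₀ T u v := by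
  have hK' : Ker K := ⟨hK.contDiff, hK.hasCompactSupport, hK.nonneg⟩
  obtain ⟨ε, lam, hε, hε8, hlam, hno⟩ := exists_params hK'
  have hl : 0 < lam := by linarith
  have hε1 : ε ≤ 1 := by linarith
  refine ⟨u0f ε lam, ⟨_, u0f_lip hε hε1 hl⟩, u0f_cs hε hl, u0f_nonneg hε hl, 2 * ε,
    by positivity, ?_⟩
  intro u v h
  obtain ⟨M, u', v', hc⟩ := weak_to_core hK' (by positivity : (0:ℝ) ≤ 2 * ε) u0f_meas
    (u0f_abs hε hε1 hl) h
  exact hno M u' v' hc
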